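import Pool.Agent.V1125.LampGroup

/-!
# A group with unbounded retreat depth and non-connected spheres over `ℤ²`
-/

set_option autoImplicit false

namespace Pool.Agent.Results.MP_506dae_al.BadExtensionOfZ2

open Pool.Agent.V1125 Pool.Agent.V1125.FT

/-- There are a one-ended group `G`, a finite generating set `S` of `G` and a surjective
homomorphism `π` from `G` onto `Q = ℤ²` (so that `1 → ker π → G → Q → 1` is exact) such that
`(Q, π(S))` has bounded retreat depth and connected spheres, while `(G, S)` has unbounded retreat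
depth and does not have connected spheres. -/
theorem result :
    ∃ (G Q : Type) (_ : Group G) (_ : Group Q) (S : Set G) (π : G →* Q),
      S.Finite ∧ Subgroup.closure S = ⊤ ∧ Function.Surjective π ∧
      Nonempty (Q ≃* Multiplicative (ℤ × ℤ)) ∧
      BoundedRetreatDepth (π '' S) ∧ ConnectedSpheres (π '' S) ∧
      ¬ BoundedRetreatDepth S ∧ OneEnded S ∧ ¬ ConnectedSpheres S := by
  refine ⟨LL, Z2.Q, inferInstance, inferInstance, LL.S, LL.proj, LL.finite_S, LL.model.gen,
    LL.proj_surjective, ⟨MulEquiv.refl _⟩, Z2.boundedRetreatDepth LL.isStd,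
    Z2.connectedSpheres LL.isStd, ?_, LL.model.oneEnded, LL.model.not_connectedSpheres⟩
  rintro ⟨D, hD⟩
  obtain ⟨g, hg⟩ := LL.model.unbounded (D + 1)
  have := hD g
  omega

end Pool.Agent.Results.MP_506dae_al.BadExtensionOfZ2
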